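import Mathlib
set_option autoImplicit false

/-! # Fourier analysis on `F^ι` for the restriction problem for spheres over finite fields -/

namespace Pool.Agent.X331.RS

open Finset

variable {F : Type} [Field F] [Fintype F] [DecidableEq F]
variable {ι : Type} [Fintype ι] [DecidableEq ι]

/-- `ĝ(x) = ∑_m χ(-m·x) g(m)` -/
noncomputable def ft (χ : AddChar F ℂ) (g : (ι → F) → ℂ) (x : ι → F) : ℂ :=
  ∑ m : ι → F, χ (-∑ l, m l * x l) * g m

/-- the sphere -/
def sph (ι : Type) [Fintype ι] (j : F) : Set (ι → F) := {x | ∑ l, x l ^ 2 = j}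

/-- the character `m ↦ χ(m·z)` -/
noncomputable def chz (χ : AddChar F ℂ) (z : ι → F) : AddChar (ι → F) ℂ where
  toFun m := χ (∑ l, m l * z l)
  map_zero_eq_one' := by simp
  map_add_eq_mul' a b := by
    simp only [Pi.add_apply, add_mul, Finset.sum_add_distrib]
    exact AddChar.map_add_eq_mul χ _ _

lemma chz_apply (χ : AddChar F ℂ) (z m : ι → F) : chz χ z m = χ (∑ l, m l * z l) := rfl

lemma sum_chz (χ : AddChar F ℂ) (hχ : χ ≠ 0) (z : ι → F) :
    ∑ m : ι → F, χ (∑ l, m l * z l) = if z = 0 then ((Fintype.card F : ℂ)) ^ Fintype.card ι else 0 := by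
  classical
  split_ifs with h
  · subst h
    simp [Finset.card_univ]
  · have hne : chz χ z ≠ 0 := by
      intro h0
      apply hχ
      obtain ⟨a, ha⟩ : ∃ a, z a ≠ 0 := by
        by_contra hcon
        push Not at hcon
        exact h (funext hcon)
      ext t
      have := DFunLike.congr_fun h0 (Pi.single a (t / z a))
      rw [chz_apply] at this
      have h2 : ∑ l, (Pi.single a (t / z a) : ι → F) l * z l = t := by
        rw [Finset.sum_eq_single a]
        · simp [ha]
        · intro b _ hb
          simp [hb]
        · simp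
      rw [h2] at this
      simpa using this
    have := AddChar.sum_eq_zero_of_ne_one (ψ := chz χ z) hne
    simpa [chz_apply] using this

end Pool.Agent.X331.RS
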