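import Mathlib
import Pool.Agent.X331.RS.Base
set_option autoImplicit false
set_option linter.unusedSectionVars false

/-! # The function `∑_{x ∈ E} χ(m·x)` -/

namespace Pool.Agent.X331.RS

open Finset

variable {F : Type} [Field F] [Fintype F] [DecidableEq F]
variable {ι : Type} [Fintype ι] [DecidableEq ι]

/-- the function whose transform is a multiple of the indicator of `E` -/
noncomputable def gE (χ : AddChar F ℂ) (E : Finset (ι → F)) (m : ι → F) : ℂ :=
  ∑ x ∈ E, χ (∑ l, m l * x l)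

lemma ft_gE (χ : AddChar F ℂ) (hχ : χ ≠ 0) (E : Finset (ι → F)) (x : ι → F) :
    ft χ (gE χ E) x = if x ∈ E then ((Fintype.card F : ℂ)) ^ Fintype.card ι else 0 := by
  unfold ft gE
  have h1 : ∀ m : ι → F, χ (-∑ l, m l * x l) * ∑ y ∈ E, χ (∑ l, m l * y l) =
      ∑ y ∈ E, χ (∑ l, m l * (y - x) l) := by
    intro m
    rw [Finset.mul_sum]
    refine Finset.sum_congr rfl fun y _ => ?_
    rw [← AddChar.map_add_eq_mul]
    congr 1
    simp only [Pi.sub_apply, mul_sub, Finset.sum_sub_distrib]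
    ring
  simp_rw [h1]
  rw [Finset.sum_comm]
  simp_rw [sum_chz χ hχ]
  simp only [sub_eq_zero]
  rw [Finset.sum_ite_eq' E x]

lemma norm_chi (χ : AddChar F ℂ) (t : F) : ‖χ t‖ = 1 := by
  exact AddChar.norm_apply χ t

lemma plancherel (χ : AddChar F ℂ) (hχ : χ ≠ 0) (E : Finset (ι → F)) :
    ∑ m : ι → F, ‖gE χ E m‖ ^ 2 = (Fintype.card F : ℝ) ^ Fintype.card ι * #E := by
  have h1 : ∀ m : ι → F, ((‖gE χ E m‖ ^ 2 : ℝ) : ℂ) =
      ∑ x ∈ E, χ (-∑ l, m l * x l) * gE χ E m := by
    intro m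
    rw [← Finset.sum_mul]
    have : ((‖gE χ E m‖ ^ 2 : ℝ) : ℂ) = (starRingEnd ℂ) (gE χ E m) * gE χ E m := by
      rw [Complex.conj_mul']
      push_cast
      rfl
    rw [this]
    congr 1
    unfold gE
    rw [map_sum]
    refine Finset.sum_congr rfl fun y _ => ?_
    have h := AddChar.map_neg_eq_conj χ (∑ l, m l * y l)
    rw [h]
  have h2 : ((∑ m : ι → F, ‖gE χ E m‖ ^ 2 : ℝ) : ℂ) =
      (((Fintype.card F : ℝ) ^ Fintype.card ι * #E : ℝ) : ℂ) := by
    push_cast
    have h3 : ∀ m : ι → F, ((‖gE χ E m‖ : ℂ)) ^ 2 =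
      ∑ x ∈ E, χ (-∑ l, m l * x l) * gE χ E m := by
      intro m
      rw [← h1 m]
      push_cast
      rfl
    simp_rw [h3]
    rw [Finset.sum_comm]
    have h4 : ∀ x ∈ E, ∑ m : ι → F, χ (-∑ l, m l * x l) * gE χ E m =
        (Fintype.card F : ℂ) ^ Fintype.card ι := by
      intro x hx
      have := ft_gE χ hχ E x
      unfold ft at this
      rw [this, if_pos hx]
    rw [Finset.sum_congr rfl h4]
    simp [mul_comm]
  exact_mod_cast h2

lemma support (χ : AddChar F ℂ) (hχ : χ ≠ 0) (E : Finset (ι → F)) (v : ι → F)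
    (hv : ∀ x ∈ E, ∀ t : F, x + t • v ∈ E) (m : ι → F) (hm : gE χ E m ≠ 0) :
    ∑ l, m l * v l = 0 := by
  by_contra hne
  apply hχ
  ext t
  set s : F := t / ∑ l, m l * v l with hs
  have h1 : gE χ E m = χ t * gE χ E m := by
    unfold gE
    rw [Finset.mul_sum]
    symm
    refine Finset.sum_bij' (fun x _ => x + s • v) (fun x _ => x + (-s) • v) ?_ ?_ ?_ ?_ ?_
    · intro x hx
      exact hv x hx s
    · intro x hx
      exact hv x hx (-s)
    · intro x hx
      simp
    · intro x hx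
      simp
    · intro x hx
      rw [← AddChar.map_add_eq_mul]
      congr 1
      have : ∑ l, m l * (x + s • v) l = ∑ l, m l * x l + s * ∑ l, m l * v l := by
        rw [Finset.mul_sum, ← Finset.sum_add_distrib]
        refine Finset.sum_congr rfl fun l _ => ?_
        simp only [Pi.add_apply, Pi.smul_apply, smul_eq_mul]
        ring
      rw [this, hs, div_mul_cancel₀ _ hne]
      ring
  have h2 : (χ t - 1) * gE χ E m = 0 := by
    rw [sub_mul, one_mul, ← h1, sub_self]
  rcases mul_eq_zero.mp h2 with h | h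
  · simpa using sub_eq_zero.mp h
  · exact absurd h hm

end Pool.Agent.X331.RS
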