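import Mathlib
import Pool.Agent.X331.RS.Four
set_option autoImplicit false
set_option linter.unusedSectionVars false

/-! # Counting points -/

namespace Pool.Agent.X331.RS

open Finset

variable {F : Type} [Field F] [Fintype F] [DecidableEq F]

section upper

variable {ι : Type} [Fintype ι] [DecidableEq ι]

/-- the points of the sphere -/
def sphF (ι : Type) [Fintype ι] [DecidableEq ι] (j : F) : Finset (ι → F) :=
  Finset.univ.filter fun x => ∑ l, x l ^ 2 = j

lemma card_sphF_le (z : ι) (j : F) :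
    #(sphF ι j) ≤ 2 * Fintype.card F ^ (Fintype.card ι - 1) := by
  classical
  set f : (ι → F) → ({l : ι // l ≠ z} → F) := fun x l => x l with hf
  have h1 : ∀ a ∈ (sphF ι j).image f, #{x ∈ sphF ι j | f x = a} ≤ 2 := by
    intro a ha
    obtain ⟨x0, hx0, rfl⟩ := Finset.mem_image.mp ha
    have hsub : {x ∈ sphF ι j | f x = f x0} ⊆ {x0, Function.update x0 z (-x0 z)} := by
      intro x hx
      rw [Finset.mem_filter] at hx
      obtain ⟨hx1, hx2⟩ := hx
      have hoff : ∀ l, l ≠ z → x l = x0 l := by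
        intro l hl
        exact congrFun hx2 ⟨l, hl⟩
      have e1 : ∑ l, x l ^ 2 = j := by
        simpa [sphF] using hx1
      have e2 : ∑ l, x0 l ^ 2 = j := by
        simpa [sphF] using hx0
      have e3 : x z ^ 2 = x0 z ^ 2 := by
        rw [← Finset.add_sum_erase _ _ (Finset.mem_univ z)] at e1 e2
        have e4 : ∑ l ∈ Finset.univ.erase z, x l ^ 2 = ∑ l ∈ Finset.univ.erase z, x0 l ^ 2 := by
          refine Finset.sum_congr rfl fun l hl => ?_
          rw [hoff l (Finset.ne_of_mem_erase hl)]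
        rw [e4, ← e2] at e1
        exact add_right_cancel e1
      rcases sq_eq_sq_iff_eq_or_eq_neg.mp e3 with h | h
      · rw [Finset.mem_insert]
        left
        funext l
        by_cases hl : l = z
        · rw [hl, h]
        · exact hoff l hl
      · rw [Finset.mem_insert, Finset.mem_singleton]
        right
        funext l
        by_cases hl : l = z
        · rw [hl, h]
          simp
        · rw [hoff l hl]
          simp [hl]
    exact (Finset.card_le_card hsub).trans Finset.card_le_two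
  have h2 := Finset.card_le_mul_card_image (sphF ι j) 2 h1
  refine h2.trans (Nat.mul_le_mul_left 2 ?_)
  refine (Finset.card_le_univ _).trans ?_
  rw [Fintype.card_fun]
  apply le_of_eq
  congr 1
  rw [Fintype.card_subtype_compl]
  simp

end upper

section iso

variable (k n : ℕ)

/-- the index type -/
abbrev Ix := (Fin k ⊕ Fin k) ⊕ (Fin 2 ⊕ Fin n)

lemma card_Ix : Fintype.card (Ix k n) = 2 * k + 2 + n := by
  simp only [Fintype.card_sum, Fintype.card_fin]
  ring

/-- the part of the sphere on the orthogonal complement of an isotropic subspace -/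
def EE (i j : F) : Finset (Ix k n → F) :=
  Finset.univ.filter fun x => ∑ l, x l ^ 2 = j ∧
    ∀ l : Fin k, x (Sum.inl (Sum.inr l)) = i * x (Sum.inl (Sum.inl l))

lemma mem_EE {i j : F} {x : Ix k n → F} : x ∈ EE k n i j ↔ (∑ l, x l ^ 2 = j ∧
    ∀ l : Fin k, x (Sum.inl (Sum.inr l)) = i * x (Sum.inl (Sum.inl l))) := by
  simp [EE]

/-- the isotropic vectors -/
def vv (i : F) (l : Fin k) : Ix k n → F :=
  Sum.elim (Sum.elim (Pi.single l 1) (Pi.single l i)) 0

lemma EE_inv {i j : F} (hi : i ^ 2 = -1) (l : Fin k) (x : Ix k n → F) (hx : x ∈ EE k n i j)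
    (t : F) : x + t • vv k n i l ∈ EE k n i j := by
  rw [mem_EE] at hx ⊢
  obtain ⟨h1, h2⟩ := hx
  have h3 : ∀ a : Fin k, (x + t • vv k n i l) (Sum.inl (Sum.inr a)) =
      i * (x + t • vv k n i l) (Sum.inl (Sum.inl a)) := by
    intro a
    simp only [vv, Pi.add_apply, Pi.smul_apply, Sum.elim_inl, Sum.elim_inr, smul_eq_mul, h2 a]
    by_cases hal : a = l
    · subst hal
      simp
      ring
    · simp [hal]
  refine ⟨?_, h3⟩
  have h4 : ∀ y : Ix k n → F, (∀ a : Fin k, y (Sum.inl (Sum.inr a)) =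
      i * y (Sum.inl (Sum.inl a))) → ∑ b, y b ^ 2 = ∑ b, y (Sum.inr b) ^ 2 := by
    intro y hy
    rw [Fintype.sum_sum_type, Fintype.sum_sum_type]
    simp_rw [hy, mul_pow, hi]
    simp
  rw [h4 _ h3, ← h1, h4 _ h2]
  refine Finset.sum_congr rfl fun b _ => ?_
  simp [vv]

/-- the annihilator -/
def NN (i : F) : Finset (Ix k n → F) :=
  Finset.univ.filter fun x =>
    ∀ l : Fin k, x (Sum.inl (Sum.inl l)) + i * x (Sum.inl (Sum.inr l)) = 0

lemma card_NN_le (i : F) : #(NN k n i : Finset (Ix k n → F)) ≤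
    Fintype.card F ^ (k + 2 + n) := by
  classical
  set f : (Ix k n → F) → (Fin k ⊕ (Fin 2 ⊕ Fin n) → F) :=
    fun x => Sum.elim (fun l => x (Sum.inl (Sum.inr l))) (fun l => x (Sum.inr l)) with hf
  have hinj : Set.InjOn f (NN k n i : Finset (Ix k n → F)) := by
    intro x hx y hy hxy
    have hx' : ∀ l : Fin k, x (Sum.inl (Sum.inl l)) + i * x (Sum.inl (Sum.inr l)) = 0 := by
      simpa [NN] using hx
    have hy' : ∀ l : Fin k, y (Sum.inl (Sum.inl l)) + i * y (Sum.inl (Sum.inr l)) = 0 := by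
      simpa [NN] using hy
    have e1 : ∀ l : Fin k, x (Sum.inl (Sum.inr l)) = y (Sum.inl (Sum.inr l)) := by
      intro l
      exact congrFun hxy (Sum.inl l)
    have e2 : ∀ l, x (Sum.inr l) = y (Sum.inr l) := by
      intro l
      exact congrFun hxy (Sum.inr l)
    funext l
    rcases l with (l | l) | l
    · have a := hx' l
      have b := hy' l
      rw [e1 l] at a
      exact add_right_cancel (a.trans b.symm)
    · exact e1 l
    · exact e2 l
  have h1 := Finset.card_le_card_of_injOn (s := NN k n i) (t := Finset.univ) f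
    (fun _ _ => Finset.mem_coe.mpr (Finset.mem_univ _)) hinj
  refine h1.trans ?_
  rw [Finset.card_univ, Fintype.card_fun]
  apply le_of_eq
  congr 1
  simp only [Fintype.card_sum, Fintype.card_fin]
  ring

lemma mem_NN {i : F} {x : Ix k n → F} : x ∈ NN k n i ↔
    ∀ l : Fin k, x (Sum.inl (Sum.inl l)) + i * x (Sum.inl (Sum.inr l)) = 0 := by
  simp [NN]

lemma supp_EE (χ : AddChar F ℂ) (hχ : χ ≠ 0) {i j : F} (hi : i ^ 2 = -1) (m : Ix k n → F)
    (hm : gE χ (EE k n i j) m ≠ 0) : m ∈ NN k n i := by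
  rw [mem_NN]
  intro l
  have h := support χ hχ (EE k n i j) (vv k n i l)
    (fun x hx t => EE_inv k n hi l x hx t) m hm
  rw [Fintype.sum_sum_type, Fintype.sum_sum_type] at h
  have e1 : ∑ a : Fin k, m (Sum.inl (Sum.inl a)) * vv k n i l (Sum.inl (Sum.inl a)) =
      m (Sum.inl (Sum.inl l)) := by
    rw [Finset.sum_eq_single l]
    · simp [vv]
    · intro b _ hb
      simp [vv, hb]
    · simp
  have e2 : ∑ a : Fin k, m (Sum.inl (Sum.inr a)) * vv k n i l (Sum.inl (Sum.inr a)) =
      i * m (Sum.inl (Sum.inr l)) := by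
    rw [Finset.sum_eq_single l]
    · simp [vv]
      ring
    · intro b _ hb
      simp [vv, hb]
    · simp
  have e3 : ∑ a, m (Sum.inr a) * vv k n i l (Sum.inr a) = 0 := by
    simp [vv]
  rw [e1, e2, e3, add_zero] at h
  exact h

/-- a parametrization of part of `EE` -/
noncomputable def par (i j : F) (y : (Fin k → F) × Fˣ × (Fin n → F)) : Ix k n → F :=
  Sum.elim (Sum.elim y.1 (fun l => i * y.1 l))
    (Sum.elim ![((y.2.1 : F) + (j - ∑ l, y.2.2 l ^ 2) / y.2.1) / 2,
      ((y.2.1 : F) - (j - ∑ l, y.2.2 l ^ 2) / y.2.1) / (2 * i)] y.2.2)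

lemma par_mem {i j : F} (hi : i ^ 2 = -1) (h2 : (2 : F) ≠ 0)
    (y : (Fin k → F) × Fˣ × (Fin n → F)) : par k n i j y ∈ EE k n i j := by
  have hi0 : i ≠ 0 := by
    rintro rfl
    norm_num at hi
  rw [mem_EE]
  refine ⟨?_, fun l => rfl⟩
  rw [Fintype.sum_sum_type, Fintype.sum_sum_type, Fintype.sum_sum_type]
  simp only [par, Sum.elim_inl, Sum.elim_inr, mul_pow, hi, Fin.sum_univ_two,
    Matrix.cons_val_zero, Matrix.cons_val_one]
  have hu : (y.2.1 : F) ≠ 0 := Units.ne_zero _
  generalize hc : ∑ l, y.2.2 l ^ 2 = c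
  generalize (y.2.1 : F) = u at hu
  simp only [neg_mul, one_mul, Finset.sum_neg_distrib, add_neg_cancel, zero_add]
  have h3 : ((u + (j - c) / u) / 2) ^ 2 + ((u - (j - c) / u) / (2 * i)) ^ 2 = j - c := by
    have h4 : (2 * i) ^ 2 = - 2 ^ 2 := by
      rw [mul_pow, hi]
      ring
    rw [div_pow, div_pow, h4]
    field_simp
    ring
  rw [h3]
  ring

lemma par_inj {i j : F} (hi : i ^ 2 = -1) (h2 : (2 : F) ≠ 0) :
    Function.Injective (par k n i j) := by
  have hi0 : i ≠ 0 := by
    rintro rfl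
    norm_num at hi
  intro y z h
  obtain ⟨y1, u, y2⟩ := y
  obtain ⟨z1, v, z2⟩ := z
  have e1 : y1 = z1 := by
    funext l
    exact congrFun h (Sum.inl (Sum.inl l))
  have e2 : y2 = z2 := by
    funext l
    exact congrFun h (Sum.inr (Sum.inr l))
  subst e1 e2
  have e3 := congrFun h (Sum.inr (Sum.inl 0))
  have e4 := congrFun h (Sum.inr (Sum.inl 1))
  simp only [par, Sum.elim_inl, Sum.elim_inr, Matrix.cons_val_zero, Matrix.cons_val_one] at e3 e4
  have hu : (u : F) ≠ 0 := Units.ne_zero _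
  have hv : (v : F) ≠ 0 := Units.ne_zero _
  rw [div_left_inj' h2] at e3
  rw [div_left_inj' (mul_ne_zero h2 hi0)] at e4
  have e5 : (2 : F) * u = 2 * v := by linear_combination e3 + e4
  have e6 : (u : F) = v := mul_left_cancel₀ h2 e5
  have e7 : u = v := Units.ext e6
  rw [e7]

lemma card_EE_ge {i j : F} (hi : i ^ 2 = -1) (h2 : (2 : F) ≠ 0) :
    Fintype.card F ^ k * ((Fintype.card F - 1) * Fintype.card F ^ n) ≤ #(EE k n i j) := by
  classical
  have h := Finset.card_le_card_of_injOn (s := (Finset.univ : Finset ((Fin k → F) × Fˣ × (Fin n → F))))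
    (t := EE k n i j) (par k n i j) (fun y _ => par_mem k n hi h2 y)
    ((par_inj k n hi h2).injOn)
  refine le_trans (le_of_eq ?_) h
  rw [Finset.card_univ, Fintype.card_prod, Fintype.card_prod, Fintype.card_fun, Fintype.card_fun,
    Fintype.card_units, Fintype.card_fin, Fintype.card_fin]

end iso

end Pool.Agent.X331.RS
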