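import Mathlib
import Pool.Agent.X331.RS.Count
set_option autoImplicit false
set_option linter.unusedSectionVars false

/-! # The lower bound for the restriction constant -/

namespace Pool.Agent.X331.RS

open Finset

lemma holder_le {α : Type} (s : Finset α) (a : α → ℝ) (ha : ∀ x, 0 ≤ a x) {p : ℝ} (hp1 : 1 ≤ p)
    (hp2 : p ≤ 2) :
    (∑ x ∈ s, a x ^ p) ^ (1 / p) ≤ (#s : ℝ) ^ (1 / p - 1 / 2) * (∑ x ∈ s, a x ^ 2) ^ (1 / 2 : ℝ) := by
  have hp0 : 0 < p := by linarith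
  have hP : 1 ≤ 2 / p := by
    rw [le_div_iff₀ hp0]
    linarith
  have h := Real.rpow_sum_le_const_mul_sum_rpow s (fun x => a x ^ p) hP
  have e1 : ∀ x ∈ s, |a x ^ p| = a x ^ p := fun x _ => abs_of_nonneg (Real.rpow_nonneg (ha x) p)
  have e2 : ∀ x ∈ s, |a x ^ p| ^ (2 / p) = a x ^ 2 := by
    intro x hx
    rw [e1 x hx, ← Real.rpow_mul (ha x)]
    have : p * (2 / p) = (2 : ℕ) := by
      push_cast
      field_simp
    rw [this, Real.rpow_natCast]
  rw [Finset.sum_congr rfl e1, Finset.sum_congr rfl e2] at h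
  have hs0 : 0 ≤ ∑ x ∈ s, a x ^ p := Finset.sum_nonneg fun x _ => Real.rpow_nonneg (ha x) p
  have hs2 : 0 ≤ ∑ x ∈ s, a x ^ 2 := Finset.sum_nonneg fun x _ => sq_nonneg _
  have h2 := Real.rpow_le_rpow (Real.rpow_nonneg hs0 _) h (by norm_num : (0:ℝ) ≤ 1 / 2)
  rw [← Real.rpow_mul hs0, Real.mul_rpow (Real.rpow_nonneg (Nat.cast_nonneg _) _) hs2,
    ← Real.rpow_mul (Nat.cast_nonneg _)] at h2
  have e3 : 2 / p * (1 / 2) = 1 / p := by ring
  have e4 : (2 / p - 1) * (1 / 2) = 1 / p - 1 / 2 := by ring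
  rw [e3, e4] at h2
  exact h2

variable {F : Type} [Field F] [Fintype F] [DecidableEq F]

/-- The numerical part. -/
lemma numeric {Q P S N C a b d k : ℝ} (hQ : 1 < Q) (hP : 0 < P) (hS : 0 < S) (hN : 0 < N)
    (ha : 1 / 2 ≤ a) (hb : 1 / 2 ≤ b) (hb1 : b ≤ 1)
    (hP1 : Q ^ (d - k - 1) / 2 ≤ P) (hS1 : S ≤ 2 * Q ^ (d - 1)) (hN1 : N ≤ Q ^ (d - k))
    (h : Q ^ d * (P / S) ^ b ≤ C * (N ^ (a - 1 / 2) * (Q ^ d * P) ^ (1 / 2 : ℝ))) :
    Q ^ ((d + 1) / 2 - (d - k) * a - k * b) ≤ 3 * C := by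
  have hQ0 : 0 < Q := by linarith
  have hQd : 0 < Q ^ d := Real.rpow_pos_of_pos hQ0 d
  have hB : 0 < N ^ (a - 1 / 2) * (Q ^ d * P) ^ (1 / 2 : ℝ) := by positivity
  have hA : 0 < Q ^ d * (P / S) ^ b := by positivity
  have hC : 0 < C := by
    by_contra hcon
    push Not at hcon
    have : C * (N ^ (a - 1 / 2) * (Q ^ d * P) ^ (1 / 2 : ℝ)) ≤ 0 :=
      mul_nonpos_of_nonpos_of_nonneg hcon hB.le
    linarith
  have hlog := Real.log_le_log hA h
  rw [Real.log_mul hQd.ne' (by positivity), Real.log_rpow hQ0, Real.log_rpow (by positivity),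
    Real.log_div hP.ne' hS.ne', Real.log_mul hC.ne' hB.ne', Real.log_mul (by positivity)
    (by positivity), Real.log_rpow hN, Real.log_rpow (by positivity),
    Real.log_mul hQd.ne' hP.ne', Real.log_rpow hQ0] at hlog
  have lP := Real.log_le_log (by positivity) hP1
  have lS := Real.log_le_log hS hS1
  have lN := Real.log_le_log hN hN1
  rw [Real.log_div (by positivity) (by norm_num), Real.log_rpow hQ0] at lP
  rw [Real.log_mul (by norm_num) (by positivity), Real.log_rpow hQ0] at lS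
  rw [Real.log_rpow hQ0] at lN
  have l2 : 3 * Real.log 2 ≤ 2 * Real.log 3 := by
    have e1 : 3 * Real.log 2 = Real.log 8 := by
      rw [show (8:ℝ) = 2 ^ 3 by norm_num, Real.log_pow]
      norm_num
    have e2 : 2 * Real.log 3 = Real.log 9 := by
      rw [show (9:ℝ) = 3 ^ 2 by norm_num, Real.log_pow]
      norm_num
    rw [e1, e2]
    exact Real.log_le_log (by norm_num) (by norm_num)
  have l20 : 0 < Real.log 2 := Real.log_pos (by norm_num)
  have m1 := mul_le_mul_of_nonneg_left lP (by linarith : 0 ≤ b - 1 / 2)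
  have m2 := mul_le_mul_of_nonneg_left lS (by linarith : 0 ≤ b)
  have m3 := mul_le_mul_of_nonneg_left lN (by linarith : 0 ≤ a - 1 / 2)
  have m4 := mul_le_mul_of_nonneg_right hb1 l20.le
  have key : ((d + 1) / 2 - (d - k) * a - k * b) * Real.log Q ≤ Real.log (3 * C) := by
    rw [Real.log_mul (by norm_num) hC.ne']
    nlinarith
  rw [← Real.log_rpow hQ0] at key
  exact (Real.log_le_log_iff (by positivity) (by positivity)).mp key

theorem lower (k n : ℕ) (χ : AddChar F ℂ) (hχ : χ ≠ 0) {i : F} (j : F) (hi : i ^ 2 = -1)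
    (h2 : (2 : F) ≠ 0) {p r C : ℝ} (hp1 : 1 ≤ p) (hp2 : p ≤ 2) (hr1 : 1 ≤ r) (hr2 : r ≤ 2)
    (h : ((∑ x ∈ sphF (Ix k n) j, ‖ft χ (gE χ (EE k n i j)) x‖ ^ r) / #(sphF (Ix k n) j)) ^ (1 / r)
      ≤ C * (∑ m : Ix k n → F, ‖gE χ (EE k n i j) m‖ ^ p) ^ (1 / p)) :
    (Fintype.card F : ℝ) ^ ((((2 * k + 2 + n : ℕ) : ℝ) + 1) / 2 -
      (((2 * k + 2 + n : ℕ) : ℝ) - k) / p - k / r) ≤ 3 * C := by
  have hr0 : 0 < r := by linarith
  have hp0 : 0 < p := by linarith
  have hcard1 : 1 < Fintype.card F := Fintype.one_lt_card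
  set Q : ℝ := (Fintype.card F : ℝ) with hQdef
  have hQ : 1 < Q := by
    rw [hQdef]
    exact_mod_cast hcard1
  have hQ2 : 2 ≤ Q := by
    rw [hQdef]
    exact_mod_cast hcard1
  have hQ0 : 0 < Q := by linarith
  set d : ℝ := ((2 * k + 2 + n : ℕ) : ℝ) with hd
  set E := EE k n i j with hE
  have hEle : E ⊆ sphF (Ix k n) j := by
    intro x hx
    rw [hE, mem_EE] at hx
    exact Finset.mem_filter.mpr ⟨Finset.mem_univ _, hx.1⟩
  have hP1 : Q ^ (d - k - 1) / 2 ≤ (#E : ℝ) := by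
    have h1 := card_EE_ge k n (j := j) hi h2
    have h3 : ((Fintype.card F ^ k * ((Fintype.card F - 1) * Fintype.card F ^ n) : ℕ) : ℝ) ≤
        #E := by exact_mod_cast h1
    push_cast [Nat.cast_sub hcard1.le] at h3
    refine le_trans ?_ h3
    have e1 : Q ^ (d - k - 1) = Q ^ k * (Q * Q ^ n) := by
      have : d - k - 1 = ((k + (1 + n) : ℕ) : ℝ) := by
        rw [hd]
        push_cast
        ring
      rw [this, Real.rpow_natCast, pow_add, pow_add, pow_one]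
    rw [e1]
    have e2 : Q ^ k * (Q * Q ^ n) / 2 = Q ^ k * ((Q / 2) * Q ^ n) := by ring
    rw [e2]
    have : Q / 2 ≤ Q - 1 := by linarith
    gcongr
  have hPpos : 0 < (#E : ℝ) := lt_of_lt_of_le (by positivity) hP1
  have hS0 : 0 < (#(sphF (Ix k n) j) : ℝ) :=
    lt_of_lt_of_le hPpos (by exact_mod_cast Finset.card_le_card hEle)
  have hS1 : (#(sphF (Ix k n) j) : ℝ) ≤ 2 * Q ^ (d - 1) := by
    have h1 := card_sphF_le (ι := Ix k n) (Sum.inr (Sum.inl 0)) j
    have h3 : (#(sphF (Ix k n) j) : ℝ) ≤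
        ((2 * Fintype.card F ^ (Fintype.card (Ix k n) - 1) : ℕ) : ℝ) := by exact_mod_cast h1
    refine h3.trans (le_of_eq ?_)
    rw [card_Ix]
    push_cast
    congr 1
    have : d - 1 = ((2 * k + 2 + n - 1 : ℕ) : ℝ) := by
      rw [hd, Nat.cast_sub (by omega)]
      push_cast
      ring
    rw [this, Real.rpow_natCast]
  -- the support
  set N := NN k n i with hN
  have hN0 : 0 < (#N : ℝ) := by
    have : (0 : Ix k n → F) ∈ N := by
      rw [hN, mem_NN]
      intro l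
      simp
    exact_mod_cast Finset.card_pos.mpr ⟨_, this⟩
  have hN1 : (#N : ℝ) ≤ Q ^ (d - k) := by
    have h1 := card_NN_le k n i (F := F)
    have h3 : (#N : ℝ) ≤ ((Fintype.card F ^ (k + 2 + n) : ℕ) : ℝ) := by exact_mod_cast h1
    refine h3.trans (le_of_eq ?_)
    push_cast
    have : d - k = ((k + 2 + n : ℕ) : ℝ) := by
      rw [hd]
      push_cast
      ring
    rw [this, Real.rpow_natCast]
  have hcardd : Q ^ (Fintype.card (Ix k n)) = Q ^ d := by
    rw [card_Ix, hd, Real.rpow_natCast]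
  -- left side
  have hleft : ((∑ x ∈ sphF (Ix k n) j, ‖ft χ (gE χ E) x‖ ^ r) /
      #(sphF (Ix k n) j)) ^ (1 / r) = Q ^ d * ((#E : ℝ) / #(sphF (Ix k n) j)) ^ (1 / r) := by
    have e1 : ∑ x ∈ sphF (Ix k n) j, ‖ft χ (gE χ E) x‖ ^ r = (Q ^ d) ^ r * #E := by
      have e2 : ∀ x ∈ sphF (Ix k n) j, ‖ft χ (gE χ E) x‖ ^ r =
          if x ∈ E then (Q ^ d) ^ r else 0 := by
        intro x _
        rw [ft_gE χ hχ]
        split_ifs with hx
        · rw [norm_pow]
          simp only [Complex.norm_natCast]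
          rw [← hQdef, hcardd]
        · rw [norm_zero, Real.zero_rpow hr0.ne']
      rw [Finset.sum_congr rfl e2, Finset.sum_ite_mem, Finset.inter_eq_right.mpr hEle]
      simp [mul_comm]
    rw [e1, mul_div_assoc, Real.mul_rpow (by positivity) (by positivity)]
    congr 1
    rw [← Real.rpow_mul (by positivity), mul_one_div, div_self hr0.ne', Real.rpow_one]
  -- right side
  have hright : (∑ m : Ix k n → F, ‖gE χ E m‖ ^ p) ^ (1 / p) ≤
      (#N : ℝ) ^ (1 / p - 1 / 2) * (Q ^ d * #E) ^ (1 / 2 : ℝ) := by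
    have hz : ∀ m : Ix k n → F, m ∉ N → ‖gE χ E m‖ = 0 := by
      intro m hm
      by_contra hcon
      exact hm (supp_EE k n χ hχ hi m (by
        intro h0
        apply hcon
        rw [hE, h0, norm_zero]))
    have e1 : ∑ m : Ix k n → F, ‖gE χ E m‖ ^ p = ∑ m ∈ N, ‖gE χ E m‖ ^ p := by
      symm
      refine Finset.sum_subset (Finset.subset_univ _) ?_
      intro m _ hm
      rw [hz m hm, Real.zero_rpow hp0.ne']
    have e2 : ∑ m ∈ N, ‖gE χ E m‖ ^ 2 = Q ^ d * #E := by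
      rw [← hcardd, hQdef, ← plancherel χ hχ E]
      refine Finset.sum_subset (Finset.subset_univ _) ?_
      intro m _ hm
      rw [hz m hm]
      norm_num
    rw [e1, ← e2]
    exact holder_le N _ (fun m => norm_nonneg _) hp1 hp2
  have hC0 : 0 ≤ C := by
    by_contra hcon
    push Not at hcon
    have hb : 0 ≤ (∑ m : Ix k n → F, ‖gE χ E m‖ ^ p) ^ (1 / p) := by positivity
    have : C * (∑ m : Ix k n → F, ‖gE χ E m‖ ^ p) ^ (1 / p) ≤ 0 :=
      mul_nonpos_of_nonpos_of_nonneg hcon.le hb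
    rw [hleft] at h
    have : 0 < Q ^ d * ((#E : ℝ) / #(sphF (Ix k n) j)) ^ (1 / r) := by positivity
    linarith
  rw [hleft] at h
  have h' := h.trans (mul_le_mul_of_nonneg_left hright hC0)
  have hfin := numeric (a := 1 / p) (b := 1 / r) (k := (k : ℝ)) hQ hPpos hS0 hN0
    (one_div_le_one_div_of_le hp0 hp2) (one_div_le_one_div_of_le hr0 hr2)
    (by rw [div_le_one hr0]; exact hr1) hP1 hS1 hN1 h'
  have e5 : (d + 1) / 2 - (d - k) / p - k / r = (d + 1) / 2 - (d - k) * (1 / p) - k * (1 / r) := by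
    ring
  rw [e5]
  exact hfin

/-- The lower bound on `F^d`, `d = 2k + 2 + n`. -/
theorem lower_fin (k n : ℕ) (χ : AddChar F ℂ) (hχ : χ ≠ 0) {i : F} (j : F) (hi : i ^ 2 = -1)
    (h2 : (2 : F) ≠ 0) {d : ℕ} (hd : d = 2 * k + 2 + n) {p r C : ℝ} (hp1 : 1 ≤ p) (hp2 : p ≤ 2)
    (hr1 : 1 ≤ r) (hr2 : r ≤ 2)
    (h : ∀ g : (Fin d → F) → ℂ,
      ((∑ x ∈ sphF (Fin d) j, ‖ft χ g x‖ ^ r) / #(sphF (Fin d) j)) ^ (1 / r)
      ≤ C * (∑ m : Fin d → F, ‖g m‖ ^ p) ^ (1 / p)) :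
    (Fintype.card F : ℝ) ^ (((d : ℝ) + 1) / 2 - ((d : ℝ) - k) / p - k / r) ≤ 3 * C := by
  subst hd
  have e : Ix k n ≃ Fin (2 * k + 2 + n) := Fintype.equivFinOfCardEq (card_Ix k n)
  let φ : (Fin (2 * k + 2 + n) → F) ≃ (Ix k n → F) :=
    { toFun := fun x l => x (e l)
      invFun := fun y l => y (e.symm l)
      left_inv := fun x => by funext l; simp
      right_inv := fun y => by funext l; simp }
  have hφ : ∀ x l, φ x l = x (e l) := fun _ _ => rfl
  have hmem : ∀ x, φ x ∈ sphF (Ix k n) j ↔ x ∈ sphF (Fin (2 * k + 2 + n)) j := by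
    intro x
    simp only [sphF, Finset.mem_filter, Finset.mem_univ, true_and, hφ]
    rw [Equiv.sum_comp e (fun l => x l ^ 2)]
  have hsum : ∀ f : (Ix k n → F) → ℝ, ∑ x ∈ sphF (Fin (2 * k + 2 + n)) j, f (φ x) =
      ∑ y ∈ sphF (Ix k n) j, f y := by
    intro f
    refine Finset.sum_equiv φ (fun x => (hmem x).symm) (fun x _ => rfl)
  have hcard : #(sphF (Fin (2 * k + 2 + n)) j) = #(sphF (Ix k n) j) :=
    Finset.card_equiv φ (fun x => (hmem x).symm)
  have hft : ∀ (g : (Ix k n → F) → ℂ) (x : Fin (2 * k + 2 + n) → F),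
      ft χ (fun m => g (φ m)) x = ft χ g (φ x) := by
    intro g x
    unfold ft
    rw [← Equiv.sum_comp φ (fun m => χ (-∑ l, m l * φ x l) * g m)]
    refine Finset.sum_congr rfl fun m _ => ?_
    congr 3
    simp only [hφ]
    rw [Equiv.sum_comp e (fun l => m l * x l)]
  refine lower k n χ hχ j hi h2 hp1 hp2 hr1 hr2 ?_
  have h1 := h (fun m => gE χ (EE k n i j) (φ m))
  simp_rw [hft] at h1
  rw [hsum (fun y => ‖ft χ (gE χ (EE k n i j)) y‖ ^ r), hcard,
    Equiv.sum_comp φ (fun m => ‖gE χ (EE k n i j) m‖ ^ p)] at h1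
  exact h1

end Pool.Agent.X331.RS
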